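import Pool.Agent.UOD.B13

/-!
# Dissipative functions on the ball and the classes `C_n (H²_d)`

`F` is dissipative if `exp (-t F)` is a contractive multiplier of `H²_d` for every `t > 0`.  Put
`f = exp (-F)`.
(a) If the points of the right half-plane at distance at least `δ` from the values of `F` have
infinite logarithmic area, then `f` is cyclic.  If one index `N` works for all multipliers in
dimension `d` (a positive answer to Q1) and `f` lies in some `C_n`, then `f` is cyclic.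
(b) `F z = ∫ (1 + ⟨z,ζ⟩)/(1 - ⟨z,ζ⟩) dν(ζ)`, `ν` a finite measure on the closed ball, is dissipative,
and `f` is cyclic if `ν` is absolutely continuous with respect to a probability measure on the
closed ball which represents the origin.
(c) For `ν` on the boundary curve of an analytic disc attached to the sphere, with `φ 0 = 0`, `f`
lies in some `C_n` if and only if it is cyclic if and only if `ν` is absolutely continuous.
(d) For `d ≥ 2` there is a `ν` as in (b) for which `f` is zero-free, all slices of `f` are outer, and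
`f` lies in no `C_n`.
-/

set_option autoImplicit false

open MeasureTheory

namespace Pool.Agent.Results.MP_9c80fa_an.HerglotzMultipliers

/-- `f` is a contractive multiplier -/
def ContractiveMultiplier {d : ℕ} (f : PCM.A d) : Prop :=
  ∀ g ∈ PCM.H2 d, f * g ∈ PCM.H2 d ∧ PCM.nrm (f * g) ≤ PCM.nrm g

/-- `exp (-t F)` is a contractive multiplier for every `t > 0` -/
def Dissipative {d : ℕ} (F : PCM.A d) : Prop :=
  PCM.Conv F ∧ ∀ t : ℝ, 0 < t → ∃ g : PCM.A d, ContractiveMultiplier g ∧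
    ∀ z ∈ PCM.Ball d, PCM.ev g z = Complex.exp (-(t * PCM.ev F z))

/-- `f = exp (-F)` on the ball -/
def IsExp {d : ℕ} (F f : PCM.A d) : Prop :=
  PCM.Conv f ∧ ∀ z ∈ PCM.Ball d, PCM.ev f z = Complex.exp (-PCM.ev F z)

/-- `⟨z, ζ⟩` -/
noncomputable def ip {d : ℕ} (z ζ : Fin d → ℂ) : ℂ := ∑ i, z i * (starRingEnd ℂ) (ζ i)

/-- `F = ∫ (1 + ⟨z,ζ ω⟩)/(1 - ⟨z,ζ ω⟩) dν(ω)` on the ball -/
def IsHerglotz {d : ℕ} {Ω : Type} [MeasurableSpace Ω] (ζ : Ω → Fin d → ℂ) (ν : Measure Ω)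
    (F : PCM.A d) : Prop :=
  PCM.Conv F ∧ ∀ z ∈ PCM.Ball d, PCM.ev F z = ∫ ω, (1 + ip z (ζ ω)) / (1 - ip z (ζ ω)) ∂ν

/-- an analytic disc attached to the unit sphere, through the origin -/
structure ProperDisc (d : ℕ) (φ : ℂ → Fin d → ℂ) : Prop where
  diff : ∃ R : ℝ, 1 < R ∧ DifferentiableOn ℂ φ (Metric.ball 0 R)
  maps : ∀ w ∈ Metric.ball (0 : ℂ) 1, φ w ∈ PCM.Ball d
  bdry : ∀ w : ℂ, ‖w‖ = 1 → ∑ i, ‖φ w i‖ ^ 2 = 1
  zero : φ 0 = 0

/-- `f` has no zero in the ball and every slice `w ↦ f (w z)`, `z` in the closed ball, is outer: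
the functions `log (1/|f (w z)|)` on the circles `|w| = r` are uniformly integrable -/
def OuterSlices {d : ℕ} (f : PCM.A d) : Prop :=
  (∀ z ∈ PCM.Ball d, PCM.ev f z ≠ 0) ∧
  ∀ z : Fin d → ℂ, ∑ i, ‖z i‖ ^ 2 ≤ 1 → ∀ ε : ℝ, 0 < ε → ∃ X : ℝ, ∀ r : ℝ, 0 < r → r < 1 →
    Real.circleAverage (fun w => max (-Real.log ‖PCM.ev f (fun i => w * z i)‖ - X) 0) 0 r ≤ ε

theorem result :
    (∀ (d : ℕ) (F f : PCM.A d), Dissipative F → IsExp F f →
      (∀ δ : ℝ, 0 < δ → ∫⁻ w in {w : ℂ | 0 < w.re ∧ ∀ z ∈ PCM.Ball d, δ ≤ ‖PCM.ev F z - w‖},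
        ENNReal.ofReal (1 / (1 + ‖w‖ ^ 2)) = ⊤ → f ∈ PCM.C d 0) ∧
      (∀ N : ℕ, (∀ g : PCM.A d, (∃ n, g ∈ PCM.C d n) → g ∈ PCM.C d N) →
        (∃ n, f ∈ PCM.C d n) → f ∈ PCM.C d 0)) ∧
    (∀ (d : ℕ) (ν : Measure (Fin d → ℂ)), IsFiniteMeasure ν → (∀ᵐ ζ ∂ν, ∑ i, ‖ζ i‖ ^ 2 ≤ 1) →
      (∃ F : PCM.A d, IsHerglotz (fun ζ => ζ) ν F) ∧
      ∀ F : PCM.A d, IsHerglotz (fun ζ => ζ) ν F → Dissipative F ∧
        ∀ f : PCM.A d, IsExp F f → ∀ σ : Measure (Fin d → ℂ), IsProbabilityMeasure σ →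
          (∀ᵐ ζ ∂σ, ∑ i, ‖ζ i‖ ^ 2 ≤ 1) →
          (∀ α : Fin d →₀ ℕ, α ≠ 0 → ∫ ζ, ∏ i, ζ i ^ α i ∂σ = 0) → ν ≪ σ → f ∈ PCM.C d 0) ∧
    (∀ (d : ℕ) (φ : ℂ → Fin d → ℂ), ProperDisc d φ → ∀ ν : Measure ℝ, IsFiniteMeasure ν →
      ν (Set.Ico 0 (2 * Real.pi))ᶜ = 0 →
      (∃ F : PCM.A d, IsHerglotz (fun t : ℝ => φ (Complex.exp (t * Complex.I))) ν F) ∧
      ∀ F : PCM.A d, IsHerglotz (fun t : ℝ => φ (Complex.exp (t * Complex.I))) ν F →
        Dissipative F ∧ ∀ f : PCM.A d, IsExp F f →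
          ((∃ n, f ∈ PCM.C d n) ↔ f ∈ PCM.C d 0) ∧ (f ∈ PCM.C d 0 ↔ ν ≪ volume)) ∧
    (∀ d : ℕ, 2 ≤ d → ∃ ν : Measure (Fin d → ℂ), IsFiniteMeasure ν ∧
      (∀ᵐ ζ ∂ν, ∑ i, ‖ζ i‖ ^ 2 ≤ 1) ∧ ∀ F f : PCM.A d, IsHerglotz (fun ζ => ζ) ν F → IsExp F f →
        OuterSlices f ∧ ∀ n, f ∉ PCM.C d n) := by
  have hval : ∀ (d : ℕ) (ρ : Measure (Fin d → ℂ)), (∀ᵐ ζ ∂ρ, ∑ i, ‖ζ i‖ ^ 2 ≤ 1) →
      ∀ z : Fin d → ℂ,
      ∫ ζ, (1 + ip z ζ) / (1 - ip z ζ) ∂ρ = ∫ ζ, UOD.H (∑ i, UOD.vb ζ i * z i) ∂ρ := by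
    intro d ρ hρ z
    refine integral_congr_ae ?_
    filter_upwards [hρ] with ζ hζ
    have h1 : ip z ζ = ∑ i, UOD.vb ζ i * z i := by
      unfold ip UOD.vb
      refine Finset.sum_congr rfl fun i _ => ?_
      rw [if_pos hζ, mul_comm]
    rw [h1]
    rfl
  have hcontr : ∀ (d : ℕ) (F f : PCM.A d), Dissipative F → IsExp F f → UOD.Contr f := by
    intro d F f hF hf
    obtain ⟨g, hg, hge⟩ := hF.2 1 one_pos
    have hfg : f = g := PCM.ev_inj hf.1 (UOD.conv_of_contr hg) fun z hz => by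
      rw [hf.2 z hz, hge z hz, Complex.ofReal_one, one_mul]
    rw [hfg]
    exact hg
  refine ⟨?_, ?_, ?_, ?_⟩
  · intro d F f hF hf
    obtain ⟨hFc, hs⟩ := hF
    refine ⟨fun δ hδ h => ?_, fun N hN hn => ?_⟩
    · refine UOD.restricted_cyclic hFc (fun t ht _ => hs t ht) hδ ?_ hf.1 hf.2
      have e : PCM.Om F δ ∩ {w : ℂ | 0 < w.re} =
          {w : ℂ | 0 < w.re ∧ ∀ z ∈ PCM.Ball d, δ ≤ ‖PCM.ev F z - w‖} := by
        ext w
        exact ⟨fun h => ⟨h.2, h.1⟩, fun h => ⟨h.2, h.1⟩⟩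
      rw [e]
      exact h
    · obtain ⟨n, hn⟩ := hn
      exact UOD.index_principle hs N hN hf.1 hf.2 hn
  · intro d ν hfin hsupp
    obtain ⟨h1, h2⟩ := UOD.herg UOD.vb_field ν
    refine ⟨⟨_, h1, fun z hz => by rw [h2 z hz, hval d ν hsupp z]⟩, fun F hF => ?_⟩
    have hFe : ∀ z ∈ PCM.Ball d, PCM.ev F z = ∫ ζ, UOD.H (∑ i, UOD.vb ζ i * z i) ∂ν :=
      fun z hz => by rw [hF.2 z hz, hval d ν hsupp z]
    have hD : Dissipative F := ⟨hF.1, fun t ht => UOD.powers UOD.vb_field ν hFe ht⟩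
    refine ⟨hD, fun f hf σ hσ hσs hσm hac => ?_⟩
    exact UOD.cyclic_of_ac UOD.vb_field σ ν (fun z hz => UOD.rep_of_mom σ hσs hσm hz) hac
      (hcontr d F f hD hf) fun z hz => by rw [hf.2 z hz, hFe z hz]
  · intro d φ hφ ν hfin hsupp
    have hφ' : UOD.Proper d φ := by
      obtain ⟨R, hR, hd⟩ := hφ.diff
      exact ⟨⟨R, hR, fun i w hw => differentiableWithinAt_pi.1 (hd w hw) i⟩, hφ.maps, hφ.bdry, hφ.zero⟩
    obtain ⟨h1, h2⟩ := UOD.herg hφ'.field ν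
    have hval : ∀ z : Fin d → ℂ, ∀ t : ℝ, (1 + ip z (φ (Complex.exp (t * Complex.I)))) /
        (1 - ip z (φ (Complex.exp (t * Complex.I)))) = UOD.H (∑ i, UOD.vp φ t i * z i) := by
      intro z t
      have h1 : ip z (φ (Complex.exp (t * Complex.I))) = ∑ i, UOD.vp φ t i * z i := by
        unfold ip UOD.vp
        refine Finset.sum_congr rfl fun i _ => ?_
        rw [mul_comm]
        unfold circleMap
        rw [zero_add, Complex.ofReal_one, one_mul]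
      rw [h1]
      rfl
    refine ⟨⟨_, h1, fun z hz => by rw [h2 z hz]; simp only [hval]⟩, fun F hF => ?_⟩
    have hFe : ∀ z ∈ PCM.Ball d, PCM.ev F z = ∫ t, UOD.H (∑ i, UOD.vp φ t i * z i) ∂ν := by
      intro z hz
      rw [hF.2 z hz]
      simp only [hval]
    have hD : Dissipative F := ⟨hF.1, fun t ht => UOD.powers hφ'.field ν hFe ht⟩
    refine ⟨hD, fun f hf => ?_⟩
    have hfe : ∀ z ∈ PCM.Ball d, PCM.ev f z =
        Complex.exp (-∫ t, UOD.H (∑ i, UOD.vp φ t i * z i) ∂ν) :=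
      fun z hz => by rw [hf.2 z hz, hFe z hz]
    have h3 : ∀ n, f ∈ PCM.C d n → ν ≪ volume := fun n hn => UOD.ac_of_mem hφ' ν hsupp hn hfe
    have h4 : ν ≪ volume → f ∈ PCM.C d 0 :=
      fun h => UOD.cyclic_curve hφ' ν hsupp (hcontr d F f hD hf) hfe h
    exact ⟨⟨fun ⟨n, hn⟩ => h4 (h3 n hn), fun h => ⟨0, h⟩⟩, ⟨h3 0, h4⟩⟩
  · intro d hd
    have h01 : (⟨0, by omega⟩ : Fin d) ≠ ⟨1, by omega⟩ := by
      intro h
      have := congrArg Fin.val h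
      simp at this
    obtain ⟨ν, hν, hsupp, g, hg, hge, hsl, hn⟩ := UOD.example_ball h01
    refine ⟨ν, hν, hsupp, fun F f hF hf => ?_⟩
    have hfg : f = g := PCM.ev_inj hf.1 (UOD.conv_of_contr hg) fun z hz => by
      rw [hf.2 z hz, hF.2 z hz, hge z hz, hval d ν hsupp z]
    rw [hfg]
    exact ⟨hsl, hn⟩

end Pool.Agent.Results.MP_9c80fa_an.HerglotzMultipliers
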