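import Pool.Agent.PCY.Z5

/-!
# Exact uniform index for functions holomorphic in a neighbourhood of the closed ball

Every function holomorphic in a neighbourhood of the closed unit ball of `ℂ^d` and without zeros in
the open ball satisfies `[f^n] = [f^(n+1)]` in the Drury-Arveson space `H²_d` for `n = ⌊d/4⌋`, that is,
it belongs to `C_⌊d/4⌋ (H²_d)`.  (By the known lower bound `n > d/4 - 1` for polynomials this is the
smallest possible index, in every dimension.)
-/

set_option autoImplicit false

namespace Pool.Agent.Results.MP_9c80fa_an.HolomorphicNearBall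

/-- Let `a` be a power series in `d` variables which converges absolutely in the open unit ball, and
whose sum is the restriction of a function `F` which is analytic in a neighbourhood of the closed
ball and has no zeros in the open ball.  Then `a` lies in `C_⌊d/4⌋`. -/
theorem result (d : ℕ) (hd : 1 ≤ d) (a : PCM.A d) (F : (Fin d → ℂ) → ℂ) (ha : PCM.Conv a)
    (hF : AnalyticOnNhd ℂ F {z | ∑ i, ‖z i‖ ^ 2 ≤ 1}) (hsum : ∀ z ∈ PCM.Ball d, PCM.ev a z = F z)
    (hF0 : ∀ z ∈ PCM.Ball d, F z ≠ 0) : a ∈ PCM.C d (d / 4) :=
  PCY.main d hd a F ⟨ha, hF, hsum⟩ hF0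

end Pool.Agent.Results.MP_9c80fa_an.HolomorphicNearBall
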