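import Pool.Agent.PCM.Main2

/-!
# Uniform index for multipliers of the Drury-Arveson space with restricted range

`PCM.Cls d` is the smallest set of multipliers of `H²_d` which is closed under products and contains
the invertible multipliers, the zero-free multipliers which omit discs `D(l_j, c |l_j|)`, `l_j → 0`,
and the multipliers `exp (-F)` for which the points at distance at least `δ` from the values of `F`
form a set of infinite logarithmic area in the right half-plane (or a set on which no nonconstant
entire function of exponential type is bounded).  Every `f` in this set satisfies
`[f^n] = [f^(n+1)]` for `n = ⌊d/2⌋`, that is, `f` belongs to `C_n (H²_d)`.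
-/

set_option autoImplicit false

namespace Pool.Agent.Results.MP_9c80fa_an.RestrictedRange

/-- Multipliers of the Drury-Arveson space with restricted range lie in `C_⌊d/2⌋`. -/
theorem result (d : ℕ) (f : PCM.A d) (hf : PCM.Cls d f) : f ∈ PCM.C d (d / 2) :=
  PCM.main2 d f hf

end Pool.Agent.Results.MP_9c80fa_an.RestrictedRange
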