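import Pool.Agent.UOD.A5

/-!
# A necessary condition for `f ∈ C_n (H²_d)` that does not depend on `n`: uniform outerness

If `[f^n] = [f^(n+1)]` in the Drury-Arveson space for some `n`, then the functions `log |f ∘ φ|`,
where `φ` runs through all analytic discs in the ball with `φ 0 = 0`, are uniformly integrable: for
every `ε > 0` there is `X` such that the mean of `(log (1/|f ∘ φ|) - X)⁺` over every circle of radius
`r < 1` is at most `ε`, for all these `φ` at once.  In particular `f ∘ φ` is outer for every such `φ`.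
-/

set_option autoImplicit false

namespace Pool.Agent.Results.MP_9c80fa_an.UniformlyOuter

/-- Multipliers in some `C_n` are uniformly outer along analytic discs through the origin. -/
theorem result (d n : ℕ) (f : PCM.A d) (hf : f ∈ PCM.C d n) (ε : ℝ) (hε : 0 < ε) :
    ∃ X : ℝ, ∀ φ : ℂ → Fin d → ℂ, DifferentiableOn ℂ φ (Metric.ball 0 1) →
      (∀ w ∈ Metric.ball (0 : ℂ) 1, φ w ∈ PCM.Ball d) → φ 0 = 0 → ∀ r : ℝ, 0 < r → r < 1 →
        Real.circleAverage (fun w => max (-Real.log ‖PCM.ev f (φ w)‖ - X) 0) 0 r ≤ ε := by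
  obtain ⟨X, hX⟩ := UOD.main hf hε
  exact ⟨X, fun φ h1 h2 h3 r hr0 hr1 =>
    hX φ ⟨fun i w hw => differentiableWithinAt_pi.1 (h1 w hw) i, h2, h3⟩ r hr0 hr1⟩

end Pool.Agent.Results.MP_9c80fa_an.UniformlyOuter
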